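import Mathlib

set_option autoImplicit false

/-!
# Fewest edges forcing induced maximum degree `k` on `(k+2)`-sets: the range `n ≤ 1.32 k`

For `k ≥ 7`, `n ≥ k + 2` and `(2n - 3)² ≤ 7k² + 4k - 2` the least number of edges is
`C(n - 1, 2) - C(k, 2)`.

Proof. In the complement no set of `k + 2` vertices induces minimum degree at least two. Remove
vertices of degree at most one. If the rest `U` has at least `k + 2` vertices, take a smallest set
`W ⊆ U` with at least `k + 2` vertices and minimum degree at least two; it has at least `k + 3`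
vertices, and every vertex of `W` has a neighbour of degree exactly two in `W`. So at least half of
the vertices of `W` have degree two, and the complement has too few edges.
-/

namespace Pool.Agent.Results.MP_d31508_co.ShortRange

open Finset

open Classical in
/-- every set of `k + 2` vertices contains a vertex adjacent to at least `k` vertices of the set -/
def HasP {n : ℕ} (G : SimpleGraph (Fin n)) (k : ℕ) : Prop :=
  ∀ S : Finset (Fin n), S.card = k + 2 → ∃ v ∈ S, k ≤ (S.filter (fun w => G.Adj v w)).card

section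

open Classical

variable {V : Type}

/-- number of neighbours in `U` -/
noncomputable def dg (R : V → V → Prop) (U : Finset V) (v : V) : ℕ := (U.filter (fun w => R v w)).card

/-- number of ordered pairs -/
noncomputable def pr (R : V → V → Prop) (U : Finset V) : ℕ :=
  (U.offDiag.filter (fun p => R p.1 p.2)).card

lemma pr_erase (R : V → V → Prop) (hs : ∀ x y, R x y → R y x) (U : Finset V) (v : V) :
    pr R U ≤ pr R (U.erase v) + 2 * dg R U v := by
  have hsub : U.offDiag.filter (fun p => R p.1 p.2) ⊆
      ((U.erase v).offDiag.filter (fun p => R p.1 p.2) ∪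
        (U.filter (fun w => R v w)).image (fun w => (v, w))) ∪
        (U.filter (fun w => R v w)).image (fun w => (w, v)) := by
    rintro ⟨x, y⟩ hp
    simp only [mem_filter, mem_offDiag] at hp
    simp only [mem_union, mem_filter, mem_offDiag, mem_erase, mem_image, Prod.mk.injEq]
    by_cases hx : x = v
    · left; right
      exact ⟨y, ⟨hp.1.2.1, hx ▸ hp.2⟩, hx.symm, rfl⟩
    · by_cases hy : y = v
      · right
        exact ⟨x, ⟨hp.1.1, hs _ _ (hy ▸ hp.2)⟩, rfl, hy.symm⟩
      · left; left
        exact ⟨⟨⟨hx, hp.1.1⟩, ⟨hy, hp.1.2.1⟩, hp.1.2.2⟩, hp.2⟩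
  unfold pr dg
  have h1 := card_le_card hsub
  have h2 := card_union_le ((U.erase v).offDiag.filter (fun p => R p.1 p.2) ∪
        (U.filter (fun w => R v w)).image (fun w => (v, w)))
        ((U.filter (fun w => R v w)).image (fun w => (w, v)))
  have h3 := card_union_le ((U.erase v).offDiag.filter (fun p => R p.1 p.2))
        ((U.filter (fun w => R v w)).image (fun w => (v, w)))
  have h4 : ((U.filter (fun w => R v w)).image (fun w => (v, w))).card ≤
      (U.filter (fun w => R v w)).card := card_image_le
  have h5 : ((U.filter (fun w => R v w)).image (fun w => (w, v))).card ≤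
      (U.filter (fun w => R v w)).card := card_image_le
  omega

lemma pr_le (R : V → V → Prop) (U : Finset V) : pr R U + U.card ≤ U.card * U.card := by
  unfold pr
  have h1 := card_filter_le U.offDiag (fun p => R p.1 p.2)
  rw [offDiag_card] at h1
  have h2 : U.card ≤ U.card * U.card := Nat.le_mul_self _
  omega

lemma pr_sub (R : V → V → Prop) {W U : Finset V} (h : W ⊆ U) :
    pr R U + U.card + W.card * W.card ≤ pr R W + W.card + U.card * U.card := by
  have hsub : U.offDiag.filter (fun p => R p.1 p.2) ⊆
      W.offDiag.filter (fun p => R p.1 p.2) ∪ (U.offDiag \ W.offDiag) := by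
    intro p hp
    rw [mem_filter] at hp
    rw [mem_union, mem_filter, mem_sdiff]
    by_cases hW : p ∈ W.offDiag
    · exact Or.inl ⟨hW, hp.2⟩
    · exact Or.inr ⟨hp.1, hW⟩
  have hWU : W.offDiag ⊆ U.offDiag := by
    intro p hp
    rw [mem_offDiag] at hp ⊢
    exact ⟨h hp.1, h hp.2.1, hp.2.2⟩
  have h1 := card_le_card hsub
  have h2 := card_union_le (W.offDiag.filter (fun p => R p.1 p.2)) (U.offDiag \ W.offDiag)
  have h3 := card_sdiff_add_card_eq_card hWU
  rw [offDiag_card, offDiag_card] at h3
  have h4 : U.card ≤ U.card * U.card := Nat.le_mul_self _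
  have h5 : W.card ≤ W.card * W.card := Nat.le_mul_self _
  unfold pr
  omega

lemma core (R : V → V → Prop) (hs : ∀ x y, R x y → R y x) (W : Finset V)
    (hW : ∀ v ∈ W, ∃ u ∈ W, R u v ∧ dg R W u = 2) :
    ∃ x d : ℕ, x + d = W.card ∧ W.card ≤ 2 * d ∧ pr R W + x ≤ x * x + 4 * d := by
  set D := W.filter (fun u => dg R W u = 2) with hD
  have hDW : D ⊆ W := filter_subset _ _
  refine ⟨(W \ D).card, D.card, card_sdiff_add_card_eq_card hDW, ?_, ?_⟩
  · have h1 : W ⊆ D.biUnion (fun u => W.filter (fun w => R u w)) := by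
      intro v hv
      obtain ⟨u, hu, huv, hd⟩ := hW v hv
      rw [mem_biUnion]
      exact ⟨u, by rw [hD, mem_filter]; exact ⟨hu, hd⟩, by rw [mem_filter]; exact ⟨hv, huv⟩⟩
    have h2 := card_le_card h1
    have h3 : (D.biUnion (fun u => W.filter (fun w => R u w))).card ≤ D.card * 2 := by
      apply card_biUnion_le_card_mul
      intro u hu
      rw [hD, mem_filter] at hu
      exact le_of_eq hu.2
    omega
  · have hsub : W.offDiag.filter (fun p => R p.1 p.2) ⊆
        ((W \ D).offDiag ∪ D.biUnion (fun u => (W.filter (fun w => R u w)).image (fun w => (u, w)))) ∪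
          D.biUnion (fun u => (W.filter (fun w => R u w)).image (fun w => (w, u))) := by
      rintro ⟨x, y⟩ hp
      simp only [mem_filter, mem_offDiag] at hp
      simp only [mem_union, mem_offDiag, mem_sdiff, mem_biUnion, mem_image, mem_filter,
        Prod.mk.injEq]
      by_cases hx : x ∈ D
      · left; right
        exact ⟨x, hx, y, ⟨hp.1.2.1, hp.2⟩, rfl, rfl⟩
      · by_cases hy : y ∈ D
        · right
          exact ⟨y, hy, x, ⟨hp.1.1, hs _ _ hp.2⟩, rfl, rfl⟩
        · left; left
          exact ⟨⟨hp.1.1, hx⟩, ⟨hp.1.2.1, hy⟩, hp.1.2.2⟩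
    have h1 := card_le_card hsub
    have h2 := card_union_le ((W \ D).offDiag ∪
        D.biUnion (fun u => (W.filter (fun w => R u w)).image (fun w => (u, w))))
        (D.biUnion (fun u => (W.filter (fun w => R u w)).image (fun w => (w, u))))
    have h3 := card_union_le ((W \ D).offDiag)
        (D.biUnion (fun u => (W.filter (fun w => R u w)).image (fun w => (u, w))))
    have h4 : (D.biUnion (fun u => (W.filter (fun w => R u w)).image (fun w => (u, w)))).card ≤
        D.card * 2 := by
      apply card_biUnion_le_card_mul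
      intro u hu
      rw [hD, mem_filter] at hu
      exact card_image_le.trans (le_of_eq hu.2)
    have h5 : (D.biUnion (fun u => (W.filter (fun w => R u w)).image (fun w => (w, u)))).card ≤
        D.card * 2 := by
      apply card_biUnion_le_card_mul
      intro u hu
      rw [hD, mem_filter] at hu
      exact card_image_le.trans (le_of_eq hu.2)
    have h6 : (W \ D).card ≤ (W \ D).card * (W \ D).card := Nat.le_mul_self _
    rw [offDiag_card] at h3
    unfold pr
    omega

lemma arith (M n u x d q p : ℕ) (hM : 8 ≤ M) (hu : M + 2 ≤ u)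
    (hn : 4 * (n * n) + 10 * M + 8 ≤ 7 * (M * M) + 12 * n) (hxd : x + d = u) (hd : u ≤ 2 * d)
    (h1 : p + n + u * u ≤ q + u + n * n) (h2 : q + x ≤ x * x + 4 * d) :
    p + 3 * M ≤ M * M + 2 * n := by
  zify at *
  have hdd : (d : ℤ) = u - x := by linarith
  rw [hdd] at hd h2
  have e1 : 0 ≤ ((u : ℤ) - 2 * x) * (u + 2 * x - 10) := by
    apply mul_nonneg <;> linarith
  have e2 : 0 ≤ ((u : ℤ) - (M + 2)) * (3 * (u + M + 2) - 10) := by
    apply mul_nonneg <;> linarith
  nlinarith [e1, e2]

lemma main (R : V → V → Prop) (hs : ∀ x y, R x y → R y x) (M : ℕ) (hM : 8 ≤ M)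
    (hA : ∀ S : Finset V, S.card = M + 1 → ∃ v ∈ S, dg R S v ≤ 1) :
    ∀ (t : ℕ) (U : Finset V), U.card = M + t →
      4 * ((M + t) * (M + t)) + 10 * M + 8 ≤ 7 * (M * M) + 12 * (M + t) →
      pr R U + M ≤ M * M + 2 * t := by
  intro t
  induction t with
  | zero =>
    intro U hU _
    have := pr_le R U
    rw [hU] at this
    simpa using this
  | succ t ih =>
    intro U hU hn
    by_cases hv : ∃ v ∈ U, dg R U v ≤ 1
    · obtain ⟨v, hvU, hv1⟩ := hv
      have hc : (U.erase v).card = M + t := by
        rw [card_erase_of_mem hvU, hU]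
        omega
      have hN : 4 * ((M + t) * (M + t)) + 10 * M + 8 ≤ 7 * (M * M) + 12 * (M + t) := by
        have e : (M + (t + 1)) * (M + (t + 1)) = (M + t) * (M + t) + 2 * (M + t) + 1 := by ring
        rw [e] at hn
        omega
      have h1 := ih (U.erase v) hc hN
      have h2 := pr_erase R hs U v
      omega
    · push Not at hv
      set F := U.powerset.filter (fun W => M + 1 ≤ W.card ∧ ∀ v ∈ W, 2 ≤ dg R W v) with hF
      have hFne : F.Nonempty := by
        refine ⟨U, ?_⟩
        rw [hF, mem_filter, mem_powerset]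
        exact ⟨Subset.rfl, by omega, fun v hvU => hv v hvU⟩
      obtain ⟨W, hWF, hmin⟩ := exists_min_image F card hFne
      rw [hF, mem_filter, mem_powerset] at hWF
      obtain ⟨hWU, hWc, hWd⟩ := hWF
      have hWne : W.card ≠ M + 1 := by
        intro hh
        obtain ⟨v, hvW, hv1⟩ := hA W hh
        have := hWd v hvW
        omega
      have hcore : ∀ v ∈ W, ∃ u ∈ W, R u v ∧ dg R W u = 2 := by
        intro v hvW
        have hce : (W.erase v).card = W.card - 1 := card_erase_of_mem hvW
        have hnot : W.erase v ∉ F := by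
          intro hh
          have := hmin _ hh
          omega
        rw [hF, mem_filter, mem_powerset] at hnot
        have hex : ∃ u ∈ W.erase v, dg R (W.erase v) u < 2 := by
          by_contra hcon
          push Not at hcon
          exact hnot ⟨(erase_subset _ _).trans hWU, by omega, hcon⟩
        obtain ⟨u, hu, hu1⟩ := hex
        have huW : u ∈ W := mem_of_mem_erase hu
        have hle : dg R W u ≤ dg R (W.erase v) u + 1 := by
          unfold dg
          have hsub : W.filter (fun w => R u w) ⊆ insert v ((W.erase v).filter (fun w => R u w)) := by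
            intro w hw
            rw [mem_filter] at hw
            rw [mem_insert, mem_filter, mem_erase]
            by_cases hwv : w = v
            · exact Or.inl hwv
            · exact Or.inr ⟨⟨hwv, hw.1⟩, hw.2⟩
          exact (card_le_card hsub).trans (card_insert_le _ _)
        have h2 := hWd u huW
        refine ⟨u, huW, ?_, by omega⟩
        by_contra hR
        have heq : dg R W u = dg R (W.erase v) u := by
          unfold dg
          congr 1
          ext w
          rw [mem_filter, mem_filter, mem_erase]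
          constructor
          · rintro ⟨h3, h4⟩
            refine ⟨⟨?_, h3⟩, h4⟩
            rintro rfl
            exact hR h4
          · rintro ⟨⟨_, h3⟩, h4⟩
            exact ⟨h3, h4⟩
        omega
      obtain ⟨x, d, hxd, hd, hp⟩ := core R hs W hcore
      have hsub := pr_sub R hWU
      rw [hU] at hsub
      have := arith M (M + (t + 1)) W.card x d (pr R W) (pr R U) hM (by omega) hn hxd hd hsub hp
      omega

end

open Classical in
/-- ordered adjacent pairs -/
lemma pairs_eq {n : ℕ} (G : SimpleGraph (Fin n)) :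
    ((univ : Finset (Fin n)).offDiag.filter (fun p => G.Adj p.1 p.2)).card = 2 * G.edgeSet.ncard := by
  have h1 : ((univ : Finset (Fin n)).offDiag.filter (fun p => G.Adj p.1 p.2)) =
      (univ ×ˢ univ).filter (fun p : Fin n × Fin n => G.Adj p.1 p.2) := by
    ext p
    simp only [mem_filter, mem_offDiag, mem_univ, true_and, mem_product]
    exact ⟨fun h => h.2, fun h => ⟨h.ne, h⟩⟩
  have h2 : G.edgeSet.ncard = G.edgeFinset.card := by
    rw [← SimpleGraph.coe_edgeFinset, Set.ncard_coe_finset]
  rw [h1, h2, ← SimpleGraph.sum_degrees_eq_twice_card_edges, card_filter, sum_product]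
  apply sum_congr rfl
  intro v _
  rw [← card_filter, ← SimpleGraph.card_neighborFinset_eq_degree]
  congr 1
  ext w
  simp

lemma two_choose (n : ℕ) : 2 * n.choose 2 + n = n * n := by
  have h := Nat.triangle_succ n
  induction n with
  | zero => simp
  | succ m ih =>
    rw [Nat.choose_succ_succ' m 1, Nat.choose_one_right]
    have := ih (Nat.triangle_succ m)
    nlinarith

open Classical in
lemma lower {n k : ℕ} (hk : 7 ≤ k) (hkn : k + 2 ≤ n)
    (hn : 4 * (n * n) + 11 ≤ 7 * (k * k) + 4 * k + 12 * n)
    (G : SimpleGraph (Fin n)) (hG : HasP G k) :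
    (n - 1).choose 2 - k.choose 2 ≤ G.edgeSet.ncard := by
  have hm := main (V := Fin n) (fun x y => x ≠ y ∧ ¬ G.Adj x y)
    (fun x y h => ⟨h.1.symm, fun h' => h.2 h'.symm⟩) (k + 1) (by omega) (by
      intro S hS
      obtain ⟨v, hv, hdeg⟩ := hG S hS
      refine ⟨v, hv, ?_⟩
      have hsub : S.filter (fun w => G.Adj v w) ∪ S.filter (fun w => v ≠ w ∧ ¬ G.Adj v w) ⊆
          S.erase v := by
        intro w hw
        rw [mem_union, mem_filter, mem_filter] at hw
        rw [mem_erase]
        rcases hw with hw | hw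
        · exact ⟨hw.2.ne.symm, hw.1⟩
        · exact ⟨fun hh => hw.2.1 hh.symm, hw.1⟩
      have hdis : Disjoint (S.filter (fun w => G.Adj v w))
          (S.filter (fun w => v ≠ w ∧ ¬ G.Adj v w)) := by
        rw [disjoint_left]
        intro w h1 h2
        rw [mem_filter] at h1 h2
        exact h2.2.2 h1.2
      have h1 := card_le_card hsub
      rw [card_union_of_disjoint hdis, card_erase_of_mem hv, hS] at h1
      have hgoal : dg (fun x y => x ≠ y ∧ ¬ G.Adj x y) S v =
          (S.filter (fun w => v ≠ w ∧ ¬ G.Adj v w)).card := by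
        unfold dg
        congr 1
        ext w
        simp only [mem_filter]
      rw [hgoal]
      omega) (n - (k + 1)) univ (by rw [card_univ, Fintype.card_fin]; omega) (by
      have e : k + 1 + (n - (k + 1)) = n := by omega
      have e2 : (k + 1) * (k + 1) = k * k + 2 * k + 1 := by ring
      rw [e, e2]
      omega)
  have hp := pairs_eq G
  have hadd := card_filter_add_card_filter_not (s := (univ : Finset (Fin n)).offDiag)
    (fun p => G.Adj p.1 p.2)
  have hR : pr (fun x y => x ≠ y ∧ ¬ G.Adj x y) (univ : Finset (Fin n)) =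
      ((univ : Finset (Fin n)).offDiag.filter (fun p => ¬ G.Adj p.1 p.2)).card := by
    unfold pr
    congr 1
    ext p
    simp only [mem_filter, mem_offDiag, mem_univ, true_and]
    constructor
    · exact fun h => ⟨h.1, h.2.2⟩
    · exact fun h => ⟨h.1, h.1, h.2⟩
  rw [hR] at hm
  rw [offDiag_card, card_univ, Fintype.card_fin] at hadd
  have hnn : n ≤ n * n := Nat.le_mul_self n
  obtain ⟨r, rfl⟩ : ∃ r, n = r + 1 := ⟨n - 1, by omega⟩
  have h1 := two_choose r
  have h2 := two_choose k
  have e1 : (r + 1) * (r + 1) = r * r + 2 * r + 1 := by ring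
  have e2 : (k + 1) * (k + 1) = k * k + 2 * k + 1 := by ring
  rw [e1] at hadd hnn
  rw [e2] at hm
  simp only [Nat.add_sub_cancel]
  omega

/-- the extremal graph -/
def G0 (n k : ℕ) : SimpleGraph (Fin n) where
  Adj x y := x ≠ y ∧ x.val ≠ 0 ∧ y.val ≠ 0 ∧ (k < x.val ∨ k < y.val)
  symm := ⟨fun _ _ h => ⟨h.1.symm, h.2.2.1, h.2.1, h.2.2.2.symm⟩⟩
  loopless := ⟨fun _ h => h.1 rfl⟩

open Classical in
lemma G0_hasP (n k : ℕ) : HasP (G0 n k) k := by
  intro S hS
  have hex : ∃ x ∈ S, k < x.val := by
    by_contra hcon
    push Not at hcon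
    have hsub : S.image (fun x => x.val) ⊆ range (k + 1) := by
      intro y hy
      rw [mem_image] at hy
      obtain ⟨x, hx, rfl⟩ := hy
      rw [mem_range]
      have := hcon x hx
      omega
    have h1 := card_le_card hsub
    rw [card_image_of_injective _ Fin.val_injective, card_range, hS] at h1
    omega
  obtain ⟨x, hx, hkx⟩ := hex
  refine ⟨x, hx, ?_⟩
  have hsub : S.erase x ⊆ S.filter (fun w => (G0 n k).Adj x w) ∪
      S.filter (fun w => w.val = 0) := by
    intro w hw
    rw [mem_erase] at hw
    rw [mem_union, mem_filter, mem_filter]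
    by_cases h0 : w.val = 0
    · exact Or.inr ⟨hw.2, h0⟩
    · exact Or.inl ⟨hw.2, hw.1.symm, by omega, h0, Or.inl hkx⟩
  have h1 := card_le_card hsub
  have h2 := card_union_le (S.filter (fun w => (G0 n k).Adj x w)) (S.filter (fun w => w.val = 0))
  have h3 : (S.filter (fun w : Fin n => w.val = 0)).card ≤ 1 := by
    rw [card_le_one]
    intro a ha b hb
    rw [mem_filter] at ha hb
    exact Fin.ext (ha.2.trans hb.2.symm)
  rw [card_erase_of_mem hx, hS] at h1
  omega

open Classical in
lemma G0_card (n k : ℕ) (hkn : k + 2 ≤ n) :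
    (G0 n k).edgeSet.ncard ≤ (n - 1).choose 2 - k.choose 2 := by
  have hp := pairs_eq (G0 n k)
  set A := (univ : Finset (Fin n)).filter (fun x => x.val ≠ 0) with hA
  set B := (univ : Finset (Fin n)).filter (fun x => x.val ≠ 0 ∧ x.val ≤ k) with hB
  have hAc : A.card + 1 = n := by
    have h1 := card_filter_add_card_filter_not (s := (univ : Finset (Fin n)))
      (fun x => x.val ≠ 0)
    have h2 : ((univ : Finset (Fin n)).filter (fun x => ¬ x.val ≠ 0)).card = 1 := by
      rw [card_eq_one]
      refine ⟨⟨0, by omega⟩, ?_⟩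
      ext x
      simp only [mem_filter, mem_univ, true_and, not_not, mem_singleton, Fin.ext_iff]
    rw [h2, card_univ, Fintype.card_fin] at h1
    rw [hA]
    exact h1
  have hBc : k ≤ B.card := by
    have h1 : (Finset.univ : Finset (Fin k)).image
        (fun i : Fin k => (⟨i.val + 1, by omega⟩ : Fin n)) ⊆ B := by
      intro x hx
      rw [mem_image] at hx
      obtain ⟨i, _, rfl⟩ := hx
      rw [hB, mem_filter]
      exact ⟨mem_univ _, Nat.succ_ne_zero _, i.isLt⟩
    have h2 := card_le_card h1
    rw [card_image_of_injective _ (by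
      intro i j hij
      simp only [Fin.mk.injEq] at hij
      exact Fin.ext (by omega)), card_univ, Fintype.card_fin] at h2
    exact h2
  have hBA : B.offDiag ⊆ A.offDiag := by
    intro p hp
    rw [mem_offDiag, hB, mem_filter, mem_filter] at hp
    rw [mem_offDiag, hA, mem_filter, mem_filter]
    exact ⟨⟨mem_univ _, hp.1.2.1⟩, ⟨mem_univ _, hp.2.1.2.1⟩, hp.2.2⟩
  have hsub : (univ : Finset (Fin n)).offDiag.filter (fun p => (G0 n k).Adj p.1 p.2) ⊆
      A.offDiag \ B.offDiag := by
    intro p hp
    rw [mem_filter] at hp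
    obtain ⟨_, h1, h2, h3, h4⟩ := hp
    rw [mem_sdiff, mem_offDiag, mem_offDiag, hA, hB]
    simp only [mem_filter, mem_univ, true_and]
    refine ⟨⟨h2, h3, h1⟩, ?_⟩
    rintro ⟨⟨_, h5⟩, ⟨_, h6⟩, _⟩
    omega
  have h1 := card_le_card hsub
  have h2 := card_sdiff_add_card_eq_card hBA
  rw [offDiag_card, offDiag_card] at h2
  have h3 : A.card ≤ A.card * A.card := Nat.le_mul_self _
  have h5 := two_choose A.card
  have h6 := two_choose k
  have h7 : k * k - k ≤ B.card * B.card - B.card := by
    have e1 : k * k - k = k * (k - 1) := by rw [Nat.mul_sub, mul_one]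
    have e2 : B.card * B.card - B.card = B.card * (B.card - 1) := by rw [Nat.mul_sub, mul_one]
    rw [e1, e2]
    exact Nat.mul_le_mul hBc (by omega)
  have hn1 : n - 1 = A.card := by omega
  rw [hn1]
  omega

/-- For `k ≥ 7`, `n ≥ k + 2` and `(2n - 3)² ≤ 7k² + 4k - 2` the least number of edges of a graph
with `n` vertices in which every set of `k + 2` vertices induces maximum degree at least `k` is
`C(n - 1, 2) - C(k, 2)`. -/
theorem result : ∀ n k : ℕ, 7 ≤ k → k + 2 ≤ n →
    (2 * (n : ℤ) - 3) ^ 2 ≤ 7 * (k : ℤ) ^ 2 + 4 * k - 2 →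
    IsLeast {m : ℕ | ∃ G : SimpleGraph (Fin n), HasP G k ∧ G.edgeSet.ncard = m}
      ((n - 1).choose 2 - k.choose 2) := by
  intro n k hk hkn hn'
  have hn : 4 * (n * n) + 11 ≤ 7 * (k * k) + 4 * k + 12 * n := by
    zify
    nlinarith [hn']
  constructor
  · exact ⟨G0 n k, G0_hasP n k, le_antisymm (G0_card n k hkn)
      (lower hk hkn hn (G0 n k) (G0_hasP n k))⟩
  · rintro m ⟨G, hG, rfl⟩
    exact lower hk hkn hn G hG

end Pool.Agent.Results.MP_d31508_co.ShortRange
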